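import Pool.Agent.Q57.CF.TopA

/-!
# Effective abundance for all minimal models of pairs on covers of projective space branched along normal crossings

Let `F k`, `k = 0, ..., n`, be forms of degrees `d k` in `n + 1` variables whose zero sets in the
projective `n`-space are smooth hypersurfaces with normal crossings. Let `K` be the function field
of an abelian cover `Y` of the projective space which is branched only along these hypersurfaces: `K`
is generated by the affine coordinates and by roots `z j`,
`z j ^ (m j) = ∏ k, (F k (x) / x 0 ^ (d k)) ^ (a j k)`, where `m j` divides `∑ k, a j k * d k`. (For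
`n ≥ 2` all finite covers which are branched only along these hypersurfaces are abelian; covers
which are branched along fewer hypersurfaces are included: add general hyperplanes, `a j k = 0`.)

A prime divisor `P` over `Y` (a divisorial place of `K`) has the vector `multiplicities F d x P`
of the multiplicities `v k` of the hypersurfaces along `P`, and the log discrepancy
`logDiscrepancy F d x P` of the projective space with the boundary `∑ k, (F k = 0)`: the order of the
logarithmic canonical forms along `P`, plus one. It is `0` for the toroidal divisors `P`, whose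
vectors `v ≠ 0` of nonnegative integers, not all positive, have `m j ∣ ∑ k, a j k * v k` for all `j`
(`Admissible`), and it is positive for all other `P`.

**The pairs.** Let `(Y', Δ)` be a log canonical pair, `Y'` bimeromorphic to `Y`, whose log discrepancy
along every prime divisor `P` is `ψ v + logDiscrepancy F d x P`, `v` the vector of `P`, with a function
`ψ ≥ 0` (`IsBoundary`), so that `δ₀ P = 1 - ψ v - logDiscrepancy F d x P` (`coefficient`) is the
coefficient of `P` in the pullback of `K + Δ`. For instance let `Y'` be a toroidal modification of `Y`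
(`Y` itself or a toroidal resolution), and let `Δ` be supported over the hypersurfaces, with rational
coefficients in `[0, 1]`, such that `K + Δ` is `ℚ`-Cartier: then `ψ` is linear on the cones of a fan,
and `1 - ψ ρ` is the coefficient of `Δ` at the divisor of the generator `ρ` of a ray. For `Δ = 0` and a
toroidal resolution `Y'` (`ψ = 1` at the generators of the rays, which form bases of the lattice) the
pair is a smooth model of `K`.

**The models.** Let `(X, Δ_X)` be ANY weak log canonical model of `(Y', Δ)`: `X` is normal and
bimeromorphic to `Y'`, no prime divisor of `X` is exceptional over `Y'`, `Δ_X` is the direct image of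
`Δ`, the divisor `K_X + Δ_X` is `ℚ`-Cartier and nef, and the log discrepancies of `(X, Δ_X)` are at least
those of `(Y', Δ)`; for instance any log minimal model of `(Y', Δ)`. It is given by the coefficients `δ P` of the prime divisors `P` over `X` in the
pullback of `K_X + Δ_X`. The function `δ` has the two properties in `IsModel`: `δ P ≤ δ₀ P`, and the
sections of the multiples of `K + Δ` (the pluricanonical forms of order at least `- m δ₀ P` along all
`P`) are sections of the multiples of `K_X + Δ_X`. Nothing else is used: `X` is not toroidal in general.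
In particular `X` may be any minimal variety (any projective variety with terminal, or canonical,
singularities and nef `K_X`) which is birational to `Y`, since it is a minimal model of the smooth
toroidal models of `K`; and `(X, Δ_X) = (Y', Δ)` is allowed.

**The theorem.** Let `t ≥ 1` be a common multiple of the degrees `d k`, and let `ρ (K_X + Δ_X)` be a
Cartier divisor, or, more generally, let `ρ δ P` be integral for all `P`. Then `K_X + Δ_X` is nef if and
only if the linear system `|t ρ (K_X + Δ_X)|` has no base points: for every prime divisor `P` over `X`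
there is a section which does not vanish at `P` (take the exceptional divisor of the blowing up of a
point of `X`).

For the minimal varieties `X` among these this is the abundance conjecture in an effective form: if
`ρ K_X` is Cartier, then `|r K_X|` is base point free for `r = t ρ`, where `t` is the least common
multiple of the degrees of the branch divisors; it does not depend on the cover and on the model `X`
(and it is `1` for covers which are branched along hyperplanes). There is no condition on the Kodaira
dimension. In general, effective multiples are known if `K_X` is nef and big (Kollár), and not known to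
exist otherwise. The factor `t` is necessary: if `z ^ 2 = F 0 * F 1` is an elliptic curve, with `F 0` of
degree `3` and `F 1` of degree `1`, and `Δ` is the point over the zero of `F 1`, then `K + Δ` is a divisor
of degree one, which is nef and Cartier, but not base point free. The case in which `X` itself is
toroidal, `(X, Δ_X) = (Y', Δ)`, is an earlier result of ours (`EffectiveAbundance`), which is contained
in this theorem. That the pairs `(Y', Δ)` have good minimal models, without a bound for the multiple,
is `MP_badc2d_ag.GoodMinimalModels`.
-/

set_option autoImplicit false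

open FF MvPolynomial Pool.Agent.W602.GT

namespace Pool.Agent.Results.MP_5ff3c6_ag.AllMinimalModels

/-- The hypersurfaces `F k = 0` have normal crossings: at every point of the projective space the
gradients of the forms `F k` which vanish at this point are linearly independent. -/
def NormalCrossings {n : ℕ} (F : Fin (n + 1) → MvPolynomial (Fin (n + 1)) ℂ) : Prop :=
  ∀ x : Fin (n + 1) → ℂ, x ≠ 0 → LinearIndependent ℂ
    fun (k : {k // eval x (F k) = 0}) (l : Fin (n + 1)) => eval x (pderiv l (F k.1))

section places

variable {n R : ℕ} {K : Type} [Field K] [Algebra ℂ K]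

/-- The affine coordinates of the projective space. -/
noncomputable def affine (x : Fin (n + 1) → K) (b : Fin n) : K := x b.succ / x 0

/-- The minimal order at `P` of the homogeneous coordinates `x`. -/
noncomputable def minimalOrder (x : Fin (n + 1) → K) (P : Place ℂ K) : ℤ :=
  Finset.univ.inf' Finset.univ_nonempty fun j => P.ord (x j)

/-- The multiplicities of the hypersurfaces `F k = 0` along the prime divisor `P`; the `x j` are the
homogeneous coordinates, which are divided by one of minimal order at `P`. -/
noncomputable def multiplicities (F : Fin (n + 1) → MvPolynomial (Fin (n + 1)) ℂ)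
    (d : Fin (n + 1) → ℕ) (x : Fin (n + 1) → K) (P : Place ℂ K) (k : Fin (n + 1)) : ℕ :=
  (P.ord (aeval x (F k)) - d k * minimalOrder x P).toNat

/-- The canonical form of the projective space, evaluated at the vector fields `D`: `x 0 ^ (n + 1)`
times the determinant of the derivatives of the affine coordinates. -/
noncomputable def canonicalForm (x : Fin (n + 1) → K) (D : Fin n → Derivation ℂ K K) : K :=
  x 0 ^ (n + 1) * (Matrix.of fun a b : Fin n => D a (affine x b)).det

/-- The order of the canonical form along `P`: the minimal order of its values at vector fields which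
are regular at `P`. -/
noncomputable def formOrder (x : Fin (n + 1) → K) (P : Place ℂ K) : ℤ :=
  sInf {k : ℤ | ∃ D : Fin n → Derivation ℂ K K, (∀ a, DerReg P (D a)) ∧
    canonicalForm x D ≠ 0 ∧ P.ord (canonicalForm x D) = k}

/-- The log discrepancy along `P` of the projective space, with the boundary `∑ k, (F k = 0)`: the
order along `P` of the logarithmic canonical forms, which are obtained from the canonical form by the
division by the local equations of the hypersurfaces and by the power `n + 1` of a coordinate `x j` of
minimal order, plus one. -/
noncomputable def logDiscrepancy (F : Fin (n + 1) → MvPolynomial (Fin (n + 1)) ℂ)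
    (d : Fin (n + 1) → ℕ) (x : Fin (n + 1) → K) (P : Place ℂ K) : ℤ :=
  formOrder x P + 1 - ∑ k, (multiplicities F d x P k : ℤ) - ((n : ℤ) + 1) * minimalOrder x P

/-- The coefficient of `P` in the pullback of `K + Δ`, for the pair with the function `ψ`: its log
discrepancy along `P` is `ψ v + logDiscrepancy F d x P`, `v` the vector of the multiplicities. -/
noncomputable def coefficient (F : Fin (n + 1) → MvPolynomial (Fin (n + 1)) ℂ)
    (d : Fin (n + 1) → ℕ) (x : Fin (n + 1) → K) (ψ : (Fin (n + 1) → ℕ) → ℚ) (P : Place ℂ K) : ℚ :=
  1 - ψ (multiplicities F d x P) - logDiscrepancy F d x P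

/-- The multiplicities which satisfy the divisibility conditions. -/
def Admissible (m : Fin R → ℕ) (a : Fin R → Fin (n + 1) → ℕ) (v : Fin (n + 1) → ℕ) : Prop :=
  v ≠ 0 ∧ (∃ k, v k = 0) ∧ ∀ j, m j ∣ ∑ k, a j k * v k

/-- The function `ψ` gives the log discrepancies of a boundary along the toroidal divisors: it is not
negative (the pair is log canonical), at most homogeneous along the rays, and for a finite set `T` of
vectors every admissible vector `v` is at least a nonnegative combination of the vectors in `T`, such
that `ψ v` is at most the combination of the values at the vectors in `T`. (This holds if `ψ` is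
linear on the cones of a fan: take the generators of the rays.) -/
structure IsBoundary (m : Fin R → ℕ) (a : Fin R → Fin (n + 1) → ℕ)
    (ψ : (Fin (n + 1) → ℕ) → ℚ) : Prop where
  zero : ψ 0 = 0
  nonneg : ∀ v, 0 ≤ ψ v
  ray : ∀ v (k : ℕ), 1 ≤ k → Admissible m a v → ψ (k • v) ≤ k * ψ v
  finite : ∃ T : Finset (Fin (n + 1) → ℕ), (∀ s ∈ T, Admissible m a s) ∧ ∀ v, Admissible m a v →
    ∃ w : (Fin (n + 1) → ℕ) → ℚ, (∀ s, 0 ≤ w s) ∧ (∀ k, ∑ s ∈ T, w s * s k ≤ v k) ∧
      ψ v ≤ ∑ s ∈ T, w s * ψ s

end places

section sections

/-- `ω` is a section of `m (K + Δ) + j A`: a rational section of the `m`-th power of the canonical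
bundle (`IsPluri`: a function of `N` rational vector fields which is multiplied by `det B ^ m` under
a linear substitution `B`) whose order on the vector fields which are regular at `P` is at least `j`
times the order of one of the functions in `S`, minus `m` times the coefficient `δ P` of `P` in the
pullback of `K + Δ`, for all prime divisors `P` (all divisorial places `P` of `K`). Here `A` is the
divisor which is generated by the finite set `S` of functions; `A = 0` if `S = {1}`. -/
def IsSection {K : Type} [Field K] [Algebra ℂ K] (N : ℕ) (δ : Place ℂ K → ℚ) (S : Finset K)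
    (m j : ℕ) (ω : (Fin N → Derivation ℂ K K) → K) : Prop :=
  IsPluri m ω ∧ ∀ P : Place ℂ K, Divisorial N P → ∀ D : Fin N → Derivation ℂ K K,
    (∀ c, DerReg P (D c)) → ω D = 0 ∨ ∃ s ∈ S, s ≠ 0 ∧
      (j : ℚ) * P.ord s - m * δ P ≤ P.ord (ω D)

variable (N : ℕ) {K : Type} [Field K] [Algebra ℂ K] (δ : Place ℂ K → ℚ)

/-- The coefficients `δ` belong to a model `(X, Δ_X)` of the pair with the coefficients `δ₀` whose
log discrepancies are at least those of the pair, and the sections of the multiples of `K + Δ` are
sections of the multiples of `K_X + Δ_X`. -/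
structure IsModel (δ₀ : Place ℂ K → ℚ) : Prop where
  le : ∀ P, Divisorial N P → δ P ≤ δ₀ P
  sections : ∀ m ω, IsSection N δ₀ {1} m 0 ω → IsSection N δ {1} m 0 ω

/-- `K_X + Δ_X` is nef: there is a divisor `A` such that all `M (K_X + Δ_X) + A`, `M ≥ 1`, are
semiample, that is, some multiple of it has for every prime divisor `P` a section of the minimal
order at `P`. -/
def Nef : Prop :=
  ∃ S : Finset K, (∃ s ∈ S, s ≠ 0) ∧ ∀ M : ℕ, 1 ≤ M → ∃ j : ℕ, 1 ≤ j ∧
    ∀ P : Place ℂ K, Divisorial N P → ∃ η, IsSection N δ S (j * M) j η ∧
      ∃ D, (∀ c, DerReg P (D c)) ∧ η D ≠ 0 ∧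
        ∀ s ∈ S, s ≠ 0 → (P.ord (η D) : ℚ) ≤ j * P.ord s - (j * M) * δ P

/-- The linear system `|r (K_X + Δ_X)|` has no base points: it has for every prime divisor `P` a
section which does not vanish at `P`, that is, its order at `P` is the minimal one, `- r * δ P`. -/
def BasePointFree (r : ℕ) : Prop :=
  ∀ P : Place ℂ K, Divisorial N P → ∃ ω, IsSection N δ {1} r 0 ω ∧
    ∃ D, (∀ c, DerReg P (D c)) ∧ ω D ≠ 0 ∧ (P.ord (ω D) : ℚ) ≤ - (r * δ P)

end sections

/-- **Effective abundance.** Let `K` be the function field of an abelian cover of the projective
`n`-space which is branched along `n + 1` hypersurfaces `F k = 0` of degrees `d k` with normal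
crossings, `δ₀` the coefficients of a log canonical pair with the function `ψ`, and `δ` those of a
model `(X, Δ_X)` of it. If `ρ δ P` is integral for all `P` (for instance if `ρ (K_X + Δ_X)` is Cartier)
and `t` is a common multiple of the degrees `d k`, then `K_X + Δ_X` is nef if and only if
`|t ρ (K_X + Δ_X)|` is base point free. -/
theorem result (n R : ℕ) (hn : 1 ≤ n) (d : Fin (n + 1) → ℕ) (hd : ∀ k, 1 ≤ d k)
    (F : Fin (n + 1) → MvPolynomial (Fin (n + 1)) ℂ) (hF : ∀ k, (F k).IsHomogeneous (d k))
    (hs : NormalCrossings F) (m : Fin R → ℕ) (hm : ∀ j, 1 ≤ m j) (a : Fin R → Fin (n + 1) → ℕ)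
    (hdiv : ∀ j, m j ∣ ∑ k, a j k * d k)
    (K : Type) [Field K] [Algebra ℂ K] (x : Fin (n + 1) → K) (hx0 : x 0 ≠ 0)
    (hbas : IsTranscendenceBasis ℂ (affine x)) (z : Fin R → K)
    (hz : ∀ j, z j ^ m j = ∏ k, (aeval x (F k) / x 0 ^ d k) ^ a j k)
    (hgen : IntermediateField.adjoin ℂ (Set.range (affine x) ∪ Set.range z) = ⊤)
    (ψ : (Fin (n + 1) → ℕ) → ℚ) (hψ : IsBoundary m a ψ)
    (δ₀ δ : Place ℂ K → ℚ) (hδ₀ : δ₀ = coefficient F d x ψ) (hδ : IsModel n δ δ₀)
    (ρ : ℕ) (hρ : 1 ≤ ρ) (hint : ∀ P : Place ℂ K, Divisorial n P → ∃ z : ℤ, (ρ : ℚ) * δ P = z)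
    (t : ℕ) (ht : 1 ≤ t) (hdt : ∀ k, d k ∣ t) :
    Nef n δ ↔ BasePointFree n δ (t * ρ) := by
  obtain ⟨e, rfl⟩ : ∃ e, n = e + 1 := ⟨n - 1, by omega⟩
  refine Pool.Agent.Q57.CF.top_pairA (c := Pool.Agent.Q57.TC.cpa ψ) (δ0 := δ₀) hx0 hbas hd hF hs hm
    hz hdiv hgen (if_pos rfl) (Pool.Agent.Q57.TC.cpa_le hψ.nonneg) ?_ ?_ (fun P => ?_) hδ.le
    hδ.sections hρ hint ht hdt
  · exact Pool.Agent.Q57.TC.cpa_mul hψ.ray
  · obtain ⟨T, h1, h2⟩ := hψ.finite
    refine ⟨T, h1, fun v hv => ?_⟩
    obtain ⟨w, h3, h4, h5⟩ := h2 v hv
    refine ⟨w, h3, h4, ?_⟩
    rw [Pool.Agent.Q57.TC.cpa_ne hv.1, sub_sub_cancel]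
    refine h5.trans (le_of_eq (Finset.sum_congr rfl fun s hs => ?_))
    rw [Pool.Agent.Q57.TC.cpa_ne (h1 s hs).1, sub_sub_cancel]
  · rw [hδ₀, ← Pool.Agent.Q57.TC.cpa_ite hψ.zero]
    unfold coefficient
    congr 2

end Pool.Agent.Results.MP_5ff3c6_ag.AllMinimalModels
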