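import Pool.Agent.Q36.HB.Nu

/-!
# Abundance for varieties dominated by products of curves, with an explicit bound for the degree

Let `X` be a projective manifold of dimension `n` and `Z ⇢ X` a dominant rational map of degree `r`
from a product `Z = C 1 × ... × C n` of irrational curves of gonality `γ 1, ..., γ n` (or from any
variety `Z` with a generically finite map to such a product). Nothing is assumed about `X`, and the
map `Z ⇢ X` need not be a quotient by a group. For a general point `x` of `X` let `r_i` be the number
of different `i`-th coordinates of the `r` points of `Z` over `x`, and for a set `Q` of indices let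
`r(Q)` be the number of the points over `x` which have the same `j`-th coordinates as a given one of
them for all `j` outside `Q`. The theorem: if

* `2 r_i < γ_i` for all `i` in some set `B` (which may be empty), and
* for all `Q` disjoint from `B` the points over `x` are determined by their coordinates outside `Q`
  (`r(Q) = 1`), or `2 r(Q) - 1 ≤ ∑ j ∈ Q, (γ j - 2)`,

then the image of the canonical map of `X` has dimension at least `h`, the number of the curves `C i`
which are not elliptic; and `κ(X) = ν(X) = h` if `Z` is the product of the curves. So abundance holds
for all minimal varieties birational to such an `X`, and the canonical system `|K_X|` itself has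
already an image of the maximal dimension.

Examples. (1) The points over `x` have different `j`-th coordinates for `j` in `S` (for instance `r`
is prime and the projections to the `C j`, `j ∈ S`, do not factor through `X`), and
`2 r - 1 ≤ ∑ j ∈ S, (γ j - 2)`; so the degree may grow linearly with the dimension, and the Albanese
variety of `X` may be `0`. (2) `2 r_i < γ i` for all `i`: here `X` has maximal Albanese dimension, and
this case follows from known theorems.

Proof: the traces to `X` of the exterior products of regular differentials `f i` on the curves are
canonical forms `G_f` on `X`. If a vector field `D` of `X` kills all their quotients, there is a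
relation between the values and the derivatives of the `f i` at the `r` points of a general fibre.
By Riemann-Roch on the curves and specialisation, generic points whose number with multiplicities is
smaller than the gonality impose independent conditions on regular differentials. The condition above
is Hall's condition of the marriage theorem for the following task: assign to each point of the fibre
except one, two coordinates (or twice the same) in which its value (or its value and its derivative)
is killed, such that the coordinate `i` is used at most `γ i - 2` times. It follows that `D` is zero
on the coordinates of the curves which are not elliptic; so there are `h` algebraically independent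
quotients.
-/

set_option autoImplicit false
set_option linter.overlappingInstances false

open FF IntermediateField Pool.Agent.W619.PQ Pool.Agent.W619.TW

namespace Pool.Agent.Results.MP_5ff3c6_ag.DominatedByCurves

/-- Every nonconstant function on the curve with function field `F` has degree at least `γ`. -/
def GonalityGe (F : Type) [Field F] [Algebra ℂ F] (γ : ℕ) : Prop :=
  ∀ b : F, Transcendental ℂ b → γ ≤ Module.finrank ℂ⟮b⟯ F

/-- The image of the map given by the sections of `m K_X` has dimension at least `h`: there are
`h + 1` sections of `m K_X` whose ratios to the first one are algebraically independent. -/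
def ImageGe (K : Type) [Field K] [Algebra ℂ K] (n m h : ℕ) : Prop :=
  ∃ ω : Fin (h + 1) → (Fin n → Derivation ℂ K K) → K,
    (∀ l, IsSec ℂ K n (fun _ => False) {1} m 0 (ω l)) ∧
    ∃ D, (∀ l, ω l D ≠ 0) ∧ AlgebraicIndependent ℂ (fun l : Fin h => ω l.succ D / ω 0 D)

section

variable (L : Type) {M : Type} [Field L] [Field M] [Algebra ℂ L] [Algebra ℂ M] [Algebra L M]

/-- The number of different `C`-coordinates on a general fibre of `Z ⇢ X`, where `F` is the function
field of `C`: the degree over `X` of the image of `Z` in `X × C`. -/
noncomputable def coordinates (F : IntermediateField ℂ M) : ℕ :=
  Module.finrank L (IntermediateField.adjoin L (F : Set M))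

/-- The number of the points of a general fibre of `Z ⇢ X` with the same coordinates outside `Q` as a
given one: the degree of `Z` over its image in `X × ∏ j ∉ Q, C j`. -/
noncomputable def agreeing {n : ℕ} (F : Fin n → IntermediateField ℂ M) (Q : Finset (Fin n)) : ℕ :=
  Module.finrank (IntermediateField.adjoin L {z : M | ∃ j, j ∉ Q ∧ z ∈ F j}) M

end

/-- **Abundance for varieties dominated by products of curves.** Let `F i` (`i < n`) be the function
fields of curves `C i` of gonality at least `γ i ≥ 2`, `M` the function field of a variety `Z` of
dimension `n` with a generically finite rational map to the product of the curves, and `Z ⇢ X` a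
dominant rational map of finite degree to a projective manifold with function field `L`. Let `B` be a
set of indices such that twice the number of the `i`-th coordinates on a general fibre of `Z ⇢ X` is
smaller than `γ i` for `i ∈ B`. Assume that for every set `Q` of indices disjoint from `B` the number
`r(Q)` of the points of a general fibre with the same coordinates outside `Q` as a given one satisfies
`r(Q) = 1` or `2 r(Q) - 1 ≤ ∑ j ∈ Q, (γ j - 2)`. Let `h` be the number of the curves which are not
elliptic. Then the canonical map of `X` has an image of dimension at least `h`; if `Z` is the product
of the curves then `ν(X) ≤ h`, so that `κ(X) = ν(X) = h`. -/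
theorem result {L M : Type} [Field L] [Field M] [Algebra ℂ L] [Algebra ℂ M] [Algebra L M]
    [IsScalarTower ℂ L M] [FiniteDimensional L M] [Algebra.EssFiniteType ℂ L] (n : ℕ)
    (hM : Algebra.trdeg ℂ M = n) (F : Fin n → IntermediateField ℂ M) (hF : ∀ i, IsFF ℂ (F i))
    (halg : Algebra.IsAlgebraic ↥(⨆ i, F i) M)
    (γ : Fin n → ℕ) (hγ2 : ∀ i, 2 ≤ γ i) (hγ : ∀ i, GonalityGe (F i) (γ i))
    (B : Finset (Fin n)) (hB : ∀ i ∈ B, 2 * coordinates L (F i) < γ i)
    (hQ : ∀ Q : Finset (Fin n), Disjoint Q B →
      agreeing L F Q = 1 ∨ 2 * agreeing L F Q ≤ 1 + ∑ j ∈ Q, (γ j - 2)) :
    ImageGe L n 1 {i | ¬ IsElliptic (F i)}.ncard ∧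
    (⨆ i, F i = ⊤ → NumLe ℂ L n (fun _ => False) {i | ¬ IsElliptic (F i)}.ncard) := by
  have hirr : ∀ i, ¬ ∃ t : F i, ℂ⟮t⟯ = ⊤ := fun i =>
    Q36.HB.irr_of_gon fun b hb => (hγ2 i).trans (hγ i b hb)
  refine ⟨?_, fun hsup => Q36.HB.num_dom F hM hsup hirr⟩
  have h1 := Q36.HB.image_hall F hM halg hγ2 hγ B hB hQ
  rw [Q36.HB.ncard_elliptic F hirr] at h1
  exact h1

end Pool.Agent.Results.MP_5ff3c6_ag.DominatedByCurves
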