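import Pool.Agent.Q47.FL.Snc2

/-!
# Abundance for complete intersections in flag bundles over quotients of complex tori

Let `X = V / Γ` be the quotient of a complex torus of any dimension by any finite group, which may
have fixed points and reflections (so that `X` may be for example an abelian variety, a variety with
trivial canonical class, a weighted projective space, or a fibration of these). Let `Y → X` be the
bundle of the partial flags of any given type in a direct sum of arbitrary line bundles `c_i` on `X`
(for example a Grassmannian bundle or the bundle of full flags). Let `Z_1, ..., Z_k ⊂ Y` be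
hypersurfaces whose pullbacks to the flag bundle over the torus are smooth with normal crossings
(`k = 1`: any such hypersurface), of arbitrary classes.

(1) If `K_Y + ∑ Z_j` is nef, then it is semiample.

(2) If `Γ` contains no reflections, then it suffices that `K_Y + ∑ Z_j` is nef on the fibres of
`Y → X`.

By adjunction `(K_Y + ∑ Z_j)|_Z = K_Z` for `Z = Z_1 ∩ ... ∩ Z_k`, which is a variety with quotient
singularities, and smooth if `Γ` acts freely: for a section `G` of `O_Y(N m (K_Y + ∑ Z_j))` the form
`G (ρ^m Res (dv ∧ ω / ∏ F_j) ^ m) ^ N` is an `N m`-canonical form on `Z`, which vanishes exactly where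
`G` does. So a multiple of `K_Z` is base point free. For example `Z` may be a minimal variety with
terminal singularities, or a compact Kähler manifold, in general not algebraic.

`IsSection`, `IsFibreNef`, `IsNef`, `IsNormalCrossing` and `anti` are defined in
`Pool.Agent.Q47.FL.Defs` (the flag bundle `Y` is the quotient of `V × GL_q` by `Γ` and by a parabolic
subgroup), `IsTorusQuotient` and `LineBundle` (given by a factor of automorphy) in
`Pool.Agent.W594.SYZ.Defs2`, `IsChernForm` and `IsNefForm` in `Pool.Agent.W594.SYZ.TQDefs`,
`OnMirror`, `IsRamification` and `Pool.Agent.TH735.AQ.IsLogPluricanonical` (here it says that `K` is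
the line bundle `O_X(m K_X)`) in `Pool.Agent.TH735.AQ.MirDefs`.

The proof. Let `F_j = ∑ f_{j,α}(v) g ^ α` define `Z_j`, where `g` is the matrix and `α` has the row
degrees `χ(α)`. Let `a ∈ ℤ^q` define a one-parameter group of diagonal matrices, and let `w` be a
permutation which sorts `a`; at the corresponding fixed point of the flag variety all tangent weights
are positive. Normal crossings imply by Hall's marriage theorem that the monomial valuation with
these weights has on `∏ F_j` at most the value `∑` of the weights. This says
`min ∑_j ⟨a, χ(α_j)⟩ ≤ ⟨a, w λ⟩`, where `λ` is the dominant weight of `K_Y + ∑ Z_j` on the fibre. By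
the rearrangement inequality all the extremal weights `w λ` are in the sum of the Newton polytopes.
So the restriction of `m (K_Y + ∑ Z_j)` to the section `X → Y` given by `w` is a log pluricanonical
bundle of a pair `(X, B_w)`, where `B_w` is defined by a product of powers of the `f_{j,α}`, and it is
semiample by abundance for torus quotients with arbitrary effective boundary. Each invertible matrix
has, after some permutation of the rows, nonzero leading minors, and the products of powers of these
nested minors with sections on `X` generate a multiple of `K_Y + ∑ Z_j`.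
-/

set_option autoImplicit false

universe u

namespace Pool.Agent.Results.MP_5ff3c6_ag.FlagCompleteIntersections

open Pool.Agent.W594.SYZ2 Pool.Agent.TH735.AQ Q47.FL MvPolynomial

variable {V : Type u} [NormedAddCommGroup V] [NormedSpace ℂ V]

/-- Let `X = V / Γ` be a torus quotient, let `ρ` define the ramification divisor of `V → X`, let
`K = O_X(m K_X)`, let `Y → X` be the bundle of flags of the type given by the weakly increasing
function `b` in the direct sum of the line bundles `c i` on `X` with Chern forms `Hc i`, and let the
sections `F j` of the line bundles `O_Y(d j; E j)`, `j = 1, ..., k`, define hypersurfaces `Z j` whose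
pullbacks to the flag bundle over `V` are smooth with normal crossings. The line bundle
`O_Y(m (K_Y + ∑ Z j))` is given by the weight `m (∑_j d j - anti)` and by the line bundle
`K ⊗ (⊗ E j) ^ m` on `X`.

(1) If it is nef, then there is `N ≥ 1` such that for each point `(v, g)` of `Y` there is a section
of `O_Y(N m (K_Y + ∑ Z j))` which does not vanish at this point; in particular `N m K_Z` is base point
free for `Z = ⋂ Z j`.

(2) If `Γ` contains no reflections, the same holds if it is nef on the fibres. -/
theorem result [FiniteDimensional ℂ V] (Γ : Subgroup (V ≃ᵃ[ℂ] V)) (hΓ : IsTorusQuotient Γ)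
    (ρ : V → ℂ) (hρ : IsRamification Γ ρ) (m : ℕ) (hm : 1 ≤ m) (K : LineBundle Γ)
    (hK : Pool.Agent.TH735.AQ.IsLogPluricanonical K m ρ fun _ => 1)
    (HK : V → V → ℂ) (hHK : IsChernForm K HK)
    (q : ℕ) (b : Fin q → ℕ) (hb : Monotone b)
    (c : Fin q → LineBundle Γ) (Hc : Fin q → V → V → ℂ) (hc : ∀ i, IsChernForm (c i) (Hc i))
    (k : ℕ) (E : Fin k → LineBundle Γ) (HE : Fin k → V → V → ℂ)
    (hE : ∀ j, IsChernForm (E j) (HE j))
    (d : Fin k → ℕ → ℕ) (F : Fin k → V → MvPolynomial (Fin q × Fin q) ℂ)
    (hF : ∀ j, IsSection b c (d j) (E j).e (F j)) (hnc : IsNormalCrossing b F) :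
    (IsNef b Hc (fun i => m * (∑ j, (d j (b i) : ℤ) - anti b i))
        (fun v v' => HK v v' + m * ∑ j, HE j v v') →
      ∃ N : ℕ, 1 ≤ N ∧ ∃ d' : ℕ → ℕ,
        (∀ i, (d' (b i) : ℤ) = N * (m * (∑ j, (d j (b i) : ℤ) - anti b i))) ∧
        ∀ (v : V) (g : Matrix (Fin q) (Fin q) ℂ), g.det ≠ 0 →
          ∃ G, IsSection b c d' (fun γ v => (K.e γ v * (∏ j, (E j).e γ v) ^ m) ^ N) G ∧
            ev g (G v) ≠ 0) ∧
    ((∀ v, ¬ OnMirror Γ v) → IsFibreNef b (fun i => ∑ j, (d j (b i) : ℤ) - anti b i) →
      ∃ N : ℕ, 1 ≤ N ∧ ∃ d' : ℕ → ℕ,
        (∀ i, (d' (b i) : ℤ) = N * (m * (∑ j, (d j (b i) : ℤ) - anti b i))) ∧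
        ∀ (v : V) (g : Matrix (Fin q) (Fin q) ℂ), g.det ≠ 0 →
          ∃ G, IsSection b c d' (fun γ v => (K.e γ v * (∏ j, (E j).e γ v) ^ m) ^ N) G ∧
            ev g (G v) ≠ 0) := by
  have _ := hm
  refine ⟨fun hn => abundance_tot hΓ hρ hK hHK hb hc hE hF hnc hn.1 (Or.inl hn.2),
    fun hmir hn => abundance_tot hΓ hρ hK hHK hb hc hE hF hnc (fun i j hij => ?_)
      (Or.inr fun v h => hmir v ((hρ.zero_iff v).1 h))⟩
  exact mul_le_mul_of_nonneg_left (hn i j hij) (Int.natCast_nonneg m)

end Pool.Agent.Results.MP_5ff3c6_ag.FlagCompleteIntersections
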