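import Pool.Agent.Q41.AB.Fy

/-!
# The index and base points of minimal models of abelian covers

Let `K` be the function field of an abelian cover of the product of the projective spaces of the
dimensions `n l`, branched along any number `N` of hypersurfaces `F c = 0` with normal crossings, of any
multidegrees `d c`: `K` is generated by the affine coordinates `x` and by roots `z j`,
`z j ^ m j = ∏ c, F c (x) ^ a j c` (by Kummer theory all abelian covers are of this form). The
definitions of covers, normal crossings and of the boundary are in `Pool.Agent.Q41.RC.Defs`.

**Theorem.** Let `X` be a normal projective variety with the function field `K` and with canonical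
singularities (for instance a variety with terminal singularities), such that `K_X` is nef. Then
`M K_X` is Cartier and base point free for an explicit `M`: every positive `M` will do which is a
multiple of all `t ≤ N! B ^ N`, where `B` is a bound for all degrees `d c l` and for the exponent `E` of
the cover (all `E * a j c` are multiples of `m j`). The dimension is arbitrary and `K_X` need not be
big.

There is a version for pairs: `X` may be replaced by a model `(X, Δ)` of a log smooth pair `(V, D)`,
where `D` is the preimage of the hypersurfaces `F c = 0`, `c ∈ S` (with coefficients one).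

**Proof.** By the extremal argument (bend and break for forms along the strata of the hypersurfaces, see
`Pool.Agent.Results.MP_badc2d_ag.NormalCrossingCovers`) the asymptotic orders of vanishing are those of
finitely many monomial sections, which are given by the vertices of the polyhedron of the admissible
exponents. The denominators of these vertices are at most `N! B ^ N`. For a nef divisor the asymptotic
orders of vanishing are zero, so for each prime divisor one of the monomial sections generates
`M (K_X + Δ)` at its centre.
-/

set_option autoImplicit false

open FF MvPolynomial Pool.Agent.W602.GT Pool.Agent.Q41.RC.Def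

namespace Pool.Agent.Results.MP_5ff3c6_ag.IndexAndFreeness

section sections

/-- `ω` is a section of `m (K_X + Δ) + j A`: a rational section of the `m`-th power of the canonical
bundle (`IsPluri`: a function of `w` rational vector fields which is multiplied by `det B ^ m` under
a linear substitution `B`) whose order on the vector fields which are regular at `P` is at least `j`
times the order of one of the functions in `S`, minus `m` times the coefficient `g P`, for all prime
divisors `P` over `X` (all divisorial places `P` of `K`). Here `g P = 1 - a (P; X, Δ)` is the
coefficient of `P` in the crepant pull-back of `(X, Δ)`, and `A` is the divisor which is generated by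
the finite set `S` of functions; `A = 0` if `S = {1}`. -/
def IsSection {K : Type} [Field K] [Algebra ℂ K] (w : ℕ) (g : Place ℂ K → ℚ) (S : Finset K)
    (m j : ℕ) (ω : (Fin w → Derivation ℂ K K) → K) : Prop :=
  IsPluri m ω ∧ ∀ P : Place ℂ K, Divisorial w P → ∀ D : Fin w → Derivation ℂ K K,
    (∀ c, DerReg P (D c)) → ω D = 0 ∨ ∃ s ∈ S, s ≠ 0 ∧
      (j : ℚ) * P.ord s - m * g P ≤ P.ord (ω D)

variable (w : ℕ) {K : Type} [Field K] [Algebra ℂ K]

/-- The coefficients `g P = 1 - a (P; X, Δ)` are those of a model `(X, Δ)` of the log smooth pair
`(V, D)` with the coefficients `δ`: they are not larger than the coefficients `δ`, and the sections of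
the multiples of `K_V + D` are sections of the multiples of `K_X + Δ`. If `D = 0`, then every normal
projective variety `X` with canonical singularities and the function field `K` is such a model, with
`Δ = 0` and the discrepancies `-g P ≥ 0`. -/
def IsModel (δ g : Place ℂ K → ℚ) : Prop :=
  (∀ P : Place ℂ K, Divisorial w P → g P ≤ δ P) ∧
    ∀ (m : ℕ) (ω : (Fin w → Derivation ℂ K K) → K),
      IsSection w δ {1} m 1 ω → IsSection w g {1} m 1 ω

/-- `K_X + Δ` is nef: there is a divisor `A` such that for all `M` the divisor `M (K_X + Δ) + A` is
semiample: for some `j ≥ 1` and every prime divisor `P` over `X` the divisor `j (M (K_X + Δ) + A)` has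
a section which generates it at the centre of `P`. -/
def Nef (g : Place ℂ K → ℚ) : Prop :=
  ∃ S : Finset K, (∃ s ∈ S, s ≠ 0) ∧ ∀ M : ℕ, 1 ≤ M → ∃ j : ℕ, 1 ≤ j ∧
    ∀ P : Place ℂ K, Divisorial w P → ∃ η, IsSection w g S (j * M) j η ∧
      ∃ D : Fin w → Derivation ℂ K K, (∀ c, DerReg P (D c)) ∧ η D ≠ 0 ∧
        ∀ s ∈ S, s ≠ 0 → (P.ord (η D) : ℚ) ≤ j * P.ord s - (j * M) * g P

/-- `M (K_X + Δ)` is base point free (and Cartier): for every prime divisor `P` over `X` it has a
section of the order zero along `P`, which generates `M (K_X + Δ)` at the centre of `P`. -/
def BasePointFree (g : Place ℂ K → ℚ) (M : ℕ) : Prop :=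
  ∀ P : Place ℂ K, Divisorial w P → ∃ η, IsSection w g {1} M 1 η ∧
    ∃ D : Fin w → Derivation ℂ K K, (∀ c, DerReg P (D c)) ∧ η D ≠ 0 ∧
      (P.ord (η D) : ℚ) ≤ - (M * g P)

end sections

open scoped Classical in
/-- The coefficients of the boundary of `(V, D)`: `1` for the prime divisors over the hypersurfaces
`F c = 0`, `c ∈ S`, and `0` for the others. -/
noncomputable def coefficient {r N : ℕ} {n : Fin r → ℕ} (d : Fin N → Fin r → ℕ)
    (F : Fin N → MvPolynomial (Coord n) ℂ) (S : Set (Fin N)) {K : Type} [Field K] [Algebra ℂ K]
    (x : Coord n → K) (P : Place ℂ K) : ℚ :=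
  if Boundary d F S x P then 1 else 0

/-- **Abundance with an explicit multiple.** Let `K` be the function field of an abelian cover of the
product of the projective spaces of the dimensions `n l`, `l < r`, branched at most along the
hypersurfaces `F c = 0`, `c < N`, of the multidegrees `d c`, which have normal crossings. Let `B` be a
bound for the degrees and for a number `E ≥ 1` such that all `E * a j c` are multiples of `m j`. Let
`(X, Δ)` be a model of `(V, D)`, for instance (for `S = ∅`) a variety `X` with canonical singularities
and the function field `K`, and `Δ = 0`. If `K_X + Δ` is nef, then `M (K_X + Δ)` is Cartier and base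
point free for every `M > 0` which is a multiple of all `t ≤ N! B ^ N`. -/
theorem result {r N R : ℕ} (hr : 0 < r) {n : Fin r → ℕ} {d : Fin N → Fin r → ℕ}
    {F : Fin N → MvPolynomial (Coord n) ℂ} {m : Fin R → ℕ} {a : Fin R → Fin N → ℕ} {K : Type}
    [Field K] [Algebra ℂ K] {x : Coord n → K} {z : Fin R → K} (h : IsCover d F m a x z)
    (hF : NormalCrossings F) {B E M : ℕ} (hE0 : 0 < E) (hEB : E ≤ B)
    (hE : ∀ j c, m j ∣ E * a j c) (hB : ∀ c l, d c l ≤ B) (hM : 0 < M)
    (hMd : ∀ t, 0 < t → t ≤ N.factorial * B ^ N → t ∣ M) (S : Set (Fin N))
    {g : Place ℂ K → ℚ} (hg : IsModel (∑ l, n l) (coefficient d F S x) g)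
    (hnef : Nef (∑ l, n l) g) : BasePointFree (∑ l, n l) g M :=
  Pool.Agent.Q41.AB.final_free Pool.Agent.Q41.AB.combx' h hF hr (fun _ hP => if_pos hP)
    (fun _ hP => if_neg hP) hg hnef hE0 hEB hE hB hM hMd

end Pool.Agent.Results.MP_5ff3c6_ag.IndexAndFreeness
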